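import Mathlib
import Pool.Agent.Lib.helper18.Gr

set_option autoImplicit false

open Classical Matrix SimpleGraph

namespace Pool.Agent.Results.MP_025d69_co.Join

/-- The subgraph induced on `S` is connected and has no cut-vertex. -/
def NoCut {V : Type} (G : SimpleGraph V) (S : Set V) : Prop :=
  (G.induce S).Connected ∧ ∀ v ∈ S, (G.induce (S \ {v})).Preconnected

/-- Connected, and every block (maximal vertex set with `NoCut`) is a clique. -/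
def IsBlockGraph {V : Type} (G : SimpleGraph V) : Prop :=
  G.Connected ∧ ∀ S, Maximal (NoCut G) S → G.IsClique S

/-- Determinant of the adjacency matrix. -/
noncomputable def adet {V : Type} [Fintype V] (G : SimpleGraph V) : ℝ := (G.adjMatrix ℝ).det

lemma const {V : Type} (G : SimpleGraph V) (T : Set V) (φ : V → ℕ)
    (h : ∀ x ∈ T, ∀ y ∈ T, G.Adj x y → φ x = φ y) (a b : T) (p : (G.induce T).Reachable a b) :
    φ a = φ b := by
  obtain ⟨p⟩ := p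
  induction p with
  | nil => rfl
  | cons hadj _ ih => exact (h _ (Subtype.prop _) _ (Subtype.prop _) hadj).trans ih

lemma block {V : Type} (G : SimpleGraph V) (hc : G.Connected) (φ : V → V → ℕ)
    (h1 : ∀ c x y, x ≠ c → y ≠ c → G.Adj x y → φ c x = φ c y)
    (h2 : ∀ a b, a ≠ b → ¬ G.Adj a b → ∃ c, a ≠ c ∧ b ≠ c ∧ φ c a ≠ φ c b) : IsBlockGraph G := by
  refine ⟨hc, fun S hS a ha b hb hab => ?_⟩
  by_contra hn
  obtain ⟨c, h3, h4, h5⟩ := h2 a b hab hn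
  by_cases hcS : c ∈ S
  · exact h5 (const G (S \ {c}) (φ c) (fun x hx y hy => h1 c x y hx.2 hy.2) ⟨a, ha, h3⟩ ⟨b, hb, h4⟩
      (hS.prop.2 c hcS _ _))
  · exact h5 (const G S (φ c) (fun x hx y hy => h1 c x y (fun e => hcS (e ▸ hx))
      (fun e => hcS (e ▸ hy))) ⟨a, ha⟩ ⟨b, hb⟩ (hS.prop.1 _ _))

def f1 (a b : Fin 4) : Bool :=
  (a, b) ∈ [(0, 1), (0, 2), (0, 3), (1, 2)] || (b, a) ∈ [(0, 1), (0, 2), (0, 3), (1, 2)]
def l2 : List (Fin 7 × Fin 7) :=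
  [(0, 1), (0, 2), (0, 3), (0, 4), (1, 2), (1, 5), (1, 6), (3, 4), (5, 6)]
def f2 (a b : Fin 7) : Bool := (a, b) ∈ l2 || (b, a) ∈ l2
def G1 : SimpleGraph (Fin 4) := H18Gr.mk f1 (by decide +kernel) (by decide +kernel)
def G2 : SimpleGraph (Fin 7) := H18Gr.mk f2 (by decide +kernel) (by decide +kernel)

lemma adet_iff {V : Type} [Fintype V] (G : SimpleGraph V) :
    adet G = 0 ↔ ∃ v ≠ 0, G.adjMatrix ℝ *ᵥ v = 0 := Matrix.exists_mulVec_eq_zero_iff.symm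

lemma det_ne {n : ℕ} (f : Fin n → Fin n → Bool) (hs hl) (B : Matrix (Fin n) (Fin n) ℤ) (d : ℤ)
    (hd : d ≠ 0) (h : ∀ i j, ∑ k, B i k * H18Gr.zm f k j = if i = j then d else 0) :
    adet (H18Gr.mk f hs hl) ≠ 0 := by
  rw [Ne, adet_iff, H18Gr.adjMatrix_mk]
  rintro ⟨v, hv, h0⟩
  have h1 : B.map (Int.cast : ℤ → ℝ) * (H18Gr.zm f).map Int.cast = (d : ℝ) • 1 := by
    ext i j
    have := congrArg (Int.cast : ℤ → ℝ) (h i j)
    simpa [mul_apply, one_apply] using this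
  have h2 := congrArg (· *ᵥ v) h1
  simp only [← mulVec_mulVec, h0, mulVec_zero, smul_mulVec, one_mulVec] at h2
  exact hv ((smul_eq_zero.1 h2.symm).resolve_left (by exact_mod_cast hd))

def fj : Fin 4 ⊕ Fin 7 → Fin 4 ⊕ Fin 7 → Bool
  | .inl a, .inl b => f1 a b
  | .inr a, .inr b => f2 a b
  | .inl a, .inr b => a == 3 && b == 2
  | .inr a, .inl b => b == 3 && a == 2

def nv : Fin 4 ⊕ Fin 7 → ℤ := Sum.elim ![-1, 1, 1, -2] ![1, 1, 1, -1, -1, -1, -1]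

theorem result : ∃ (n₁ n₂ : ℕ) (G₁ : SimpleGraph (Fin n₁)) (G₂ : SimpleGraph (Fin n₂))
    (v₁ : Fin n₁) (v₂ : Fin n₂), IsBlockGraph G₁ ∧ IsBlockGraph G₂ ∧ adet G₁ ≠ 0 ∧ adet G₂ ≠ 0 ∧
    adet ((G₁ ⊕g G₂) ⊔ edge (Sum.inl v₁) (Sum.inr v₂)) = 0 := by
  refine ⟨4, 7, G1, G2, 3, 2, ?_, ?_, ?_, ?_, ?_⟩
  · refine block G1 (H18Gr.conn_of_parent G1 0 (fun _ => 0) (fun v => v.val) ?_)
      !![0, 1, 1, 3; 0, 1, 0, 0; 0, 0, 2, 0; 0, 0, 0, 3] ?_ ?_ <;>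
    simp only [G1, H18Gr.mk_adj] <;> decide +kernel
  · refine block G2 (H18Gr.conn_of_parent G2 0 (fun v => if v.val < 5 then 0 else 1)
      (fun v => v.val) ?_)
      !![0, 1, 1, 3, 3, 1, 1; 0, 1, 0, 0, 0, 5, 5; 0, 0, 2, 0, 0, 0, 0; 0, 0, 0, 3, 0, 0, 0;
        0, 0, 0, 0, 4, 0, 0; 0, 0, 0, 0, 0, 5, 0; 0, 0, 0, 0, 0, 0, 6] ?_ ?_ <;>
    simp only [G2, H18Gr.mk_adj] <;> decide +kernel
  · exact det_ne _ _ _ !![0, 0, 0, 1; 0, 0, 1, -1; 0, 1, 0, -1; 1, -1, -1, 2] 1 one_ne_zero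
      (by decide +kernel)
  · exact det_ne _ _ _ !![-1, 1, 3, 1, 1, -1, -1; 1, -1, 3, -1, -1, 1, 1; 3, 3, 3, -3, -3, -3, -3;
      1, -1, -3, -1, 5, 1, 1; 1, -1, -3, 5, -1, 1, 1; -1, 1, -3, 1, 1, -1, 5;
      -1, 1, -3, 1, 1, 5, -1] 6 (by norm_num) (by decide +kernel)
  · have e : (G1 ⊕g G2) ⊔ edge (Sum.inl 3) (Sum.inr 2) =
        H18Gr.mk fj (by decide +kernel) (by decide +kernel) := by
      ext a b
      rcases a with a | a <;> rcases b with b | b <;> simp [G1, G2, fj, edge_adj, and_comm]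
    rw [e, adet_iff, H18Gr.adjMatrix_mk]
    refine ⟨fun i => (nv i : ℝ), fun h => ?_, ?_⟩
    · have := congrFun h (Sum.inl 1)
      simp [nv] at this
    · have h : H18Gr.zm fj *ᵥ nv = 0 := by decide +kernel
      ext i
      have := congrFun h i
      simp only [mulVec, dotProduct, map_apply, Pi.zero_apply] at this ⊢
      exact_mod_cast this

end Pool.Agent.Results.MP_025d69_co.Join
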